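import Pool.Agent.helper32.TRG.Spec

/-!
# Row tg:Y4P (MP_561ff4_al)
-/

set_option autoImplicit false

open Finset

namespace Pool.Agent.TRI

open Pool.Agent.EXC

theorem Y4P_odd (χ u v a b : Fin 4 → ℤ) (h : ∀ i, (2 : ℤ) ∣ u i + v i - (a i + b i))
    (ha : cv4 χ a = 0) (hb : cv4 χ b = 1) : ∃ k : ℤ, cv4 χ u + cv4 χ v = 2 * k + 1 := by
  choose w hw using h
  refine ⟨∑ i, χ i * w i, ?_⟩
  have h1 : cv4 χ u + cv4 χ v = (cv4 χ a + cv4 χ b) + 2 * ∑ i, χ i * w i := by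
    simp only [cv4, Fin.sum_univ_four]
    linear_combination χ 0 * hw 0 + χ 1 * hw 1 + χ 2 * hw 2 + χ 3 * hw 3
  rw [h1, ha, hb]
  ring

theorem Y4P (hW4P : W4P_stmt) (hT4P : T4P_stmt) : Y4P_stmt := by
  intro K _ χ c hc j hj hχ1 hχ2 u v hK t ht
  have hWP := hW4P j u v hj hK
  obtain ⟨hu, hv, huv, hmod⟩ := hK
  obtain ⟨g₀, hg₀, s, s', hs, hs', h1, h2⟩ :=
    f_WPG 4 C4 K hb4 th4 (bt4 j) u v th4_root (bt4_spec j).1 hWP
  obtain ⟨k, hk⟩ := Y4P_odd χ u v th4 (bt4 j) hmod hχ1 hχ2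
  have hS : c ^ k * t ≠ 0 := mul_ne_zero (zpow_ne_zero _ hc) ht
  have hT : c ^ (cv4 χ u - k) * t⁻¹ ≠ 0 := mul_ne_zero (zpow_ne_zero _ hc) (inv_ne_zero ht)
  obtain ⟨h, hh, h3, h4⟩ := (hT4P K u v hu hv _ _ hS hT).1 huv
  have e1 : c ^ k * t * (c ^ (cv4 χ u - k) * t⁻¹) = c ^ (cv4 χ u) := by
    have : c ^ (cv4 χ u) = c ^ k * c ^ (cv4 χ u - k) := by
      rw [← zpow_add₀ hc]
      ring_nf
    rw [this]
    field_simp
  have e2 : c ^ k * t * (c ^ (cv4 χ u - k) * t⁻¹)⁻¹ * c = c ^ (cv4 χ v) * t ^ 2 := by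
    have : c ^ (cv4 χ v) = c ^ k * (c ^ (cv4 χ u - k))⁻¹ * c := by
      rw [← zpow_neg, ← zpow_add₀ hc, ← zpow_add_one₀ hc]
      have : cv4 χ v = k + -(cv4 χ u - k) + 1 := by linarith
      rw [← this]
    rw [this, mul_inv, inv_inv]
    ring
  have hg : h * g₀ ∈ GE C4 K := mul_mem hh hg₀
  have hg1 : (h * g₀) (E C4 th4) = ((s : K) * c ^ (cv4 χ u)) • (E C4 u : Lm C4 K) := by
    change h (g₀ (E C4 th4)) = _
    rw [h1, map_smul, h3, smul_smul, e1]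
  have hg2 : (h * g₀) (E C4 (bt4 j)) = ((s' : K) * (c ^ k * t * (c ^ (cv4 χ u - k) * t⁻¹)⁻¹)) •
      (E C4 v : Lm C4 K) := by
    change h (g₀ (E C4 (bt4 j))) = _
    rw [h2, map_smul, h4, smul_smul]
  have c1 := g_GCJ 4 C4 K hb4 _ hg th4 u th4_root hu _ hg1 (1 * c ^ (cv4 χ th4))
  have c2 := g_GCJ 4 C4 K hb4 _ hg (bt4 j) v (bt4_spec j).1 hv _ hg2 (1 * c ^ (cv4 χ (bt4 j)))
  refine ⟨h * g₀, hg, (s : K), (s' : K), ?_, ?_, ?_⟩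
  · rcases hs with rfl | rfl
    · left; norm_num
    · right; norm_num
  · rcases hs' with rfl | rfl
    · left; norm_num
    · right; norm_num
  · have e3 : (h * g₀) * (XP χ c th4 1 * XP χ c (bt4 j) 1) * (h * g₀)⁻¹ =
        ((h * g₀) * XP χ c th4 1 * (h * g₀)⁻¹) * ((h * g₀) * XP χ c (bt4 j) 1 * (h * g₀)⁻¹) := by
      group
    rw [e3]
    unfold XP
    rw [c1, c2, hχ1, hχ2]
    have e4 : (s : K) * c ^ (cv4 χ u) * (1 * c ^ (0 : ℤ)) = (s : K) * c ^ (cv4 χ u) := by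
      rw [zpow_zero, mul_one, mul_one]
    have e5 : (s' : K) * (c ^ k * t * (c ^ (cv4 χ u - k) * t⁻¹)⁻¹) * (1 * c ^ (1 : ℤ)) =
        (s' : K) * t ^ 2 * c ^ (cv4 χ v) := by
      rw [zpow_one, one_mul, mul_assoc, e2]
      ring
    rw [e4, e5]

end Pool.Agent.TRI
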